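import Pool.Agent.helper90.FL.Spec

set_option autoImplicit false

namespace Pool.Agent.helper90.FL

open Finset Polynomial
open scoped Classical

theorem MIN_xor (a b c d : Prop) : ((¬ (a ↔ b)) ↔ (¬ (c ↔ d))) ↔ ((a ↔ c) ↔ (b ↔ d)) := by
  by_cases ha : a <;> by_cases hb : b <;> by_cases hc : c <;> by_cases hd : d <;> simp [ha, hb, hc, hd]

theorem MIN_aux (V E : Type) (s t : E → V) (B : Finset E) : ∀ (n : ℕ) (X : Finset E), X.card = n → ¬ Ind s t B X →
    ∃ C ⊆ X, Cir s t B C := by
  intro n
  induction n using Nat.strong_induction_on with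
  | _ n ih =>
    intro X hX hn
    by_cases hex : ∃ e ∈ X, ¬ Ind s t B (X.erase e)
    · obtain ⟨e, he, hne⟩ := hex
      obtain ⟨C, hC, hcir⟩ := ih (X.erase e).card (by rw [← hX]; exact Finset.card_erase_lt_of_mem he) (X.erase e) rfl hne
      exact ⟨C, hC.trans (Finset.erase_subset _ _), hcir⟩
    · have hall : ∀ e ∈ X, Ind s t B (X.erase e) := by
        intro e he
        by_contra hc
        exact hex ⟨e, he, hc⟩
      have hc0 : ∃ c₀ ∈ X, Lp s t (B ∪ X.erase c₀) c₀ := by
        by_contra hc
        apply hn
        intro e he hl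
        exact hc ⟨e, he, hl⟩
      obtain ⟨c₀, hc₀, hlp⟩ := hc0
      refine ⟨X, Finset.Subset.refl _, ⟨c₀, hc₀⟩, ?_, hall⟩
      intro c hc
      by_cases hcc : c = c₀
      · rw [hcc]
        exact hlp
      · intro S hS
        by_contra hsep
        have hmem : c₀ ∈ X.erase c := Finset.mem_erase.2 ⟨fun h => hcc h.symm, hc₀⟩
        have h1 := hall c hc c₀ hmem
        unfold Lp at h1
        push Not at h1
        obtain ⟨S', hS', hsep'⟩ := h1
        have hsep'' : ¬ (s c₀ ∈ S' ↔ t c₀ ∈ S') := by
          intro h
          rcases hsep' with ⟨h2, h3⟩ | ⟨h2, h3⟩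
          · exact h3 (h.1 h2)
          · exact h2 (h.2 h3)
        -- S' separates c
        have hc' : ¬ (s c ∈ S' ↔ t c ∈ S') := by
          intro hno
          apply hsep''
          apply hlp S'
          intro e he
          rcases Finset.mem_union.1 he with he | he
          · exact hS' e (Finset.mem_union_left _ he)
          · by_cases hec : e = c
            · rw [hec]
              exact hno
            · have he2 := Finset.mem_erase.1 he
              exact hS' e (Finset.mem_union_right _ (Finset.mem_erase.2 ⟨he2.1, Finset.mem_erase.2 ⟨hec, he2.2⟩⟩))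
        have hcl : Cl s t (B ∪ X.erase c₀) {v | ¬ (v ∈ S ↔ v ∈ S')} := by
          intro e he
          show (¬ (s e ∈ S ↔ s e ∈ S')) ↔ (¬ (t e ∈ S ↔ t e ∈ S'))
          rw [MIN_xor]
          rcases Finset.mem_union.1 he with he | he
          · have a1 := hS e (Finset.mem_union_left _ he)
            have a2 := hS' e (Finset.mem_union_left _ he)
            exact iff_of_true a1 a2
          · by_cases hec : e = c
            · rw [hec]
              exact iff_of_false hsep hc'
            · have he2 := Finset.mem_erase.1 he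
              have a1 := hS e (Finset.mem_union_right _ (Finset.mem_erase.2 ⟨hec, he2.2⟩))
              have a2 := hS' e (Finset.mem_union_right _ (Finset.mem_erase.2 ⟨he2.1, Finset.mem_erase.2 ⟨hec, he2.2⟩⟩))
              exact iff_of_true a1 a2
        have h2 := hlp _ hcl
        have h3 : (¬ (s c₀ ∈ S ↔ s c₀ ∈ S')) ↔ (¬ (t c₀ ∈ S ↔ t c₀ ∈ S')) := h2
        rw [MIN_xor] at h3
        exact hsep'' (h3.1 (hS c₀ (Finset.mem_union_right _ hmem)))

theorem MIN : MIN_stmt := by
  intro V E s t B X h
  exact MIN_aux V E s t B _ X rfl h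

end Pool.Agent.helper90.FL
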